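import Mathlib

/-!
Negative answer: for every `n ≥ 1` the class of functions that are `n` times differentiable
everywhere and whose `n`-th derivative is nowhere Hölder is not strongly `κ`-algebrable for
any `κ ≥ 1`.
-/

open Filter Topology

namespace Pool.Agent.Results.MP_4d07cf_an.NotAlgebrable

/-- `f` is `n` times differentiable at every point of `ℝ`. -/
def TimesDiff (n : ℕ) (f : ℝ → ℝ) : Prop :=
  ∀ j < n, Differentiable ℝ (deriv^[j] f)

/-- `g` is pointwise Hölder of no exponent at any point: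
the limsup of `|g y - g x| / |y - x| ^ α` as `y → x` is `∞` for all `x` and all `α > 0`. -/
def NowhereHolder (g : ℝ → ℝ) : Prop :=
  ∀ x : ℝ, ∀ α : ℝ, 0 < α → ∀ C : ℝ, ∃ᶠ y in 𝓝[≠] x, C < |g y - g x| / |y - x| ^ α

/-- The class `𝒜ₙ`. -/
def classA (n : ℕ) : Set (ℝ → ℝ) :=
  {f | TimesDiff n f ∧ NowhereHolder (deriv^[n] f)}

/-- Strong `κ`-algebrability of a set of real functions (in the algebra of all functions
`ℝ → ℝ` with pointwise operations). -/
def StronglyAlgebrable (κ : Cardinal.{0}) (A : Set (ℝ → ℝ)) : Prop :=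
  ∃ X : Set (ℝ → ℝ), Cardinal.mk X = κ ∧
    ∀ k : ℕ, 1 ≤ k → ∀ P : MvPolynomial (Fin k) ℝ, P ≠ 0 → MvPolynomial.constantCoeff P = 0 →
      ∀ y : Fin k → (ℝ → ℝ), Function.Injective y → (∀ i, y i ∈ X) →
        MvPolynomial.aeval y P ≠ 0 ∧ MvPolynomial.aeval y P ∈ A

theorem TimesDiff.mono {m n : ℕ} (h : m ≤ n) {f : ℝ → ℝ} (hf : TimesDiff n f) : TimesDiff m f :=
  fun j hj => hf j (lt_of_lt_of_le hj h)

theorem timesDiff_succ {n : ℕ} {f : ℝ → ℝ} :
    TimesDiff (n + 1) f ↔ Differentiable ℝ f ∧ TimesDiff n (deriv f) := by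
  constructor
  · intro h
    refine ⟨h 0 (Nat.succ_pos _), fun j hj => ?_⟩
    have := h (j + 1) (by omega)
    rwa [Function.iterate_succ_apply] at this
  · rintro ⟨h0, h1⟩ j hj
    rcases j with _ | j
    · exact h0
    · rw [Function.iterate_succ_apply]
      exact h1 j (by omega)

theorem TimesDiff.iter {n m : ℕ} {f : ℝ → ℝ} (h : TimesDiff (n + m) f) :
    TimesDiff n (deriv^[m] f) := by
  intro j hj
  rw [← Function.iterate_add_apply]
  exact h _ (by omega)

theorem TimesDiff.add {n : ℕ} : ∀ {f g : ℝ → ℝ}, TimesDiff n f → TimesDiff n g →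
    TimesDiff n (fun x => f x + g x) := by
  induction n with
  | zero => intro f g _ _ j hj; omega
  | succ n ih =>
    intro f g hf hg
    rw [timesDiff_succ] at hf hg ⊢
    refine ⟨hf.1.add hg.1, ?_⟩
    have : deriv (fun x => f x + g x) = fun x => deriv f x + deriv g x := by
      funext x
      exact deriv_fun_add (hf.1 x) (hg.1 x)
    rw [this]
    exact ih hf.2 hg.2

theorem TimesDiff.mul {n : ℕ} : ∀ {f g : ℝ → ℝ}, TimesDiff n f → TimesDiff n g →
    TimesDiff n (fun x => f x * g x) := by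
  induction n with
  | zero => intro f g _ _ j hj; omega
  | succ n ih =>
    intro f g hf hg
    have hf' := hf.mono (Nat.le_succ n)
    have hg' := hg.mono (Nat.le_succ n)
    rw [timesDiff_succ] at hf hg ⊢
    refine ⟨hf.1.mul hg.1, ?_⟩
    have : deriv (fun x => f x * g x) = fun x => deriv f x * g x + f x * deriv g x := by
      funext x
      exact deriv_fun_mul (hf.1 x) (hg.1 x)
    rw [this]
    exact (ih hf.2 hg').add (ih hf' hg.2)

theorem timesDiff_const (n : ℕ) (c : ℝ) : TimesDiff n (fun _ => c) := by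
  have : ∀ j, (deriv^[j] (fun _ : ℝ => c)) = fun _ => if j = 0 then c else 0 := by
    intro j
    induction j with
    | zero => simp
    | succ j ih =>
      rw [Function.iterate_succ_apply', ih]
      funext x
      simp
  intro j _
  rw [this]
  exact differentiable_const _

/-- The Leibniz type expansion `(h²)⁽ᵐ⁾ = 2 h h⁽ᵐ⁾ + R`. -/
theorem leibniz {n : ℕ} {h : ℝ → ℝ} (hh : TimesDiff n h) :
    ∀ m : ℕ, 1 ≤ m → m ≤ n → ∃ R : ℝ → ℝ, TimesDiff (n - m + 1) R ∧
      deriv^[m] (fun x => h x * h x) = fun x => 2 * (h x * (deriv^[m] h) x) + R x := by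
  intro m hm
  induction m, hm using Nat.le_induction with
  | base =>
    intro h1
    refine ⟨fun _ => 0, timesDiff_const _ 0, ?_⟩
    have hd : Differentiable ℝ h := hh 0 (by omega)
    funext x
    simp only [Function.iterate_one]
    rw [deriv_fun_mul (hd x) (hd x)]
    ring
  | succ m hm ih =>
    intro hmn
    obtain ⟨R, hR, hE⟩ := ih (by omega)
    have hd : Differentiable ℝ h := hh 0 (by omega)
    have hdm : Differentiable ℝ (deriv^[m] h) := hh m (by omega)
    have hRd : Differentiable ℝ R := hR 0 (by omega)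
    refine ⟨fun x => deriv R x + 2 * (deriv h x * (deriv^[m] h) x), ?_, ?_⟩
    · have e1 : TimesDiff (n - (m + 1) + 1) (deriv R) := by
        have : n - m + 1 = (n - (m + 1) + 1) + 1 := by omega
        rw [this, timesDiff_succ] at hR
        exact hR.2
      have e2 : TimesDiff (n - (m + 1) + 1) (deriv h) := by
        have : TimesDiff (n - (m + 1) + 1 + 1) h := hh.mono (by omega)
        rw [timesDiff_succ] at this
        exact this.2
      have e3 : TimesDiff (n - (m + 1) + 1) (deriv^[m] h) := by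
        apply TimesDiff.iter
        exact hh.mono (by omega)
      exact e1.add ((timesDiff_const _ 2).mul (e2.mul e3))
    · rw [Function.iterate_succ_apply', hE]
      funext x
      have a1 : HasDerivAt (fun x => 2 * (h x * (deriv^[m] h) x))
          (2 * (deriv h x * (deriv^[m] h) x + h x * deriv (deriv^[m] h) x)) x :=
        ((hd x).hasDerivAt.mul (hdm x).hasDerivAt).const_mul 2
      have a2 := a1.add (hRd x).hasDerivAt
      have a3 := a2.deriv
      rw [Function.iterate_succ_apply']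
      refine a3.trans ?_
      ring

/-- A derivative (of an everywhere differentiable function) is bounded on some
nonempty open interval. -/
theorem exists_bounded_deriv {g : ℝ → ℝ} (hg : Differentiable ℝ g) :
    ∃ x₀ : ℝ, ∃ N : ℝ, ∀ᶠ y in 𝓝 x₀, |deriv g y| ≤ N := by
  let E : ℕ → Set ℝ := fun N =>
    {x | ∀ t : ℝ, |t| ≤ 1 / ((N : ℝ) + 1) → |g (x + t) - g x| ≤ (N : ℝ) * |t|}
  have hclosed : ∀ N, IsClosed (E N) := by
    intro N
    have : E N = ⋂ t : ℝ, ⋂ _ : |t| ≤ 1 / ((N : ℝ) + 1),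
        {x | |g (x + t) - g x| ≤ (N : ℝ) * |t|} := by
      ext x; simp [E]
    rw [this]
    refine isClosed_iInter fun t => isClosed_iInter fun _ => ?_
    have hc := hg.continuous
    exact isClosed_le (by fun_prop) (by fun_prop)
  have hunion : ⋃ N, E N = Set.univ := by
    rw [Set.eq_univ_iff_forall]
    intro x
    have h1 := (hg x).hasDerivAt
    have h2 := h1.isLittleO
    have h3 : ∀ᶠ y in 𝓝 x, |g y - g x| ≤ (|deriv g x| + 1) * |y - x| := by
      have := h2.def (c := 1) one_pos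
      filter_upwards [this] with y hy
      have hy' : |g y - g x - (y - x) * deriv g x| ≤ 1 * |y - x| := by
        simpa [Real.norm_eq_abs, smul_eq_mul] using hy
      calc |g y - g x| = |(g y - g x - (y - x) * deriv g x) + (y - x) * deriv g x| := by ring_nf
        _ ≤ |g y - g x - (y - x) * deriv g x| + |(y - x) * deriv g x| := abs_add_le _ _
        _ ≤ 1 * |y - x| + |y - x| * |deriv g x| := by
            rw [abs_mul (y - x)]; linarith
        _ = (|deriv g x| + 1) * |y - x| := by ring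
    obtain ⟨δ, hδ, hball⟩ := Metric.eventually_nhds_iff.mp h3
    obtain ⟨N, hN⟩ := exists_nat_gt (max (|deriv g x| + 1) (1 / δ))
    have hN1 : |deriv g x| + 1 < N := lt_of_le_of_lt (le_max_left _ _) hN
    have hN2 : 1 / δ < N := lt_of_le_of_lt (le_max_right _ _) hN
    rw [Set.mem_iUnion]
    refine ⟨N, fun t ht => ?_⟩
    have hNpos : (0 : ℝ) < N := lt_trans (by positivity) hN1
    have htδ : |t| < δ := by
      refine lt_of_le_of_lt ht ?_
      rw [div_lt_iff₀ (by positivity)]
      rw [div_lt_iff₀ hδ] at hN2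
      nlinarith
    have := @hball (x + t) (by simpa [Real.dist_eq] using htδ)
    have h5 : x + t - x = t := by ring
    rw [h5] at this
    refine this.trans ?_
    exact mul_le_mul_of_nonneg_right hN1.le (abs_nonneg _)
  obtain ⟨N, x₀, hx₀⟩ := nonempty_interior_of_iUnion_of_closed hclosed hunion
  refine ⟨x₀, N, ?_⟩
  filter_upwards [mem_interior_iff_mem_nhds.mp hx₀] with y hy
  -- the derivative at `y` is a limit of difference quotients bounded by `N`
  have h1 := (hg y).hasDerivAt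
  rw [hasDerivAt_iff_tendsto_slope_zero] at h1
  have h2 : Tendsto (fun t : ℝ => |t⁻¹ • (g (y + t) - g y)|) (𝓝[≠] 0) (𝓝 |deriv g y|) :=
    (continuous_abs.tendsto _).comp h1
  refine le_of_tendsto h2 ?_
  have h3 : ∀ᶠ t : ℝ in 𝓝[≠] 0, |t| ≤ 1 / ((N : ℝ) + 1) := by
    apply nhdsWithin_le_nhds
    have : Tendsto (fun t : ℝ => |t|) (𝓝 0) (𝓝 0) := by
      simpa using (continuous_abs.tendsto (0 : ℝ))
    exact this.eventually_le_const (by positivity)
  filter_upwards [h3, self_mem_nhdsWithin] with t ht ht0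
  have ht0' : 0 < |t| := abs_pos.mpr ht0
  have := hy t ht
  rw [smul_eq_mul, abs_mul, abs_inv, inv_mul_le_iff₀ ht0']
  linarith [mul_comm (N : ℝ) |t|]

/-- Main lemma: for every `f` in `𝒞ₙ` there is a constant `c` such that the `n`-th derivative
of `f² - 2 c f` is Lipschitz at some point. -/
theorem key {n : ℕ} (hn : 1 ≤ n) {f : ℝ → ℝ} (hf : TimesDiff n f) :
    ∃ c : ℝ, ¬ NowhereHolder (deriv^[n] (fun x => f x * f x - 2 * c * f x)) := by
  obtain ⟨m, rfl⟩ : ∃ m, n = m + 1 := ⟨n - 1, by omega⟩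
  have hg : Differentiable ℝ (deriv^[m] f) := hf m (by omega)
  obtain ⟨x₀, N, hN⟩ := exists_bounded_deriv hg
  refine ⟨f x₀, ?_⟩
  set h : ℝ → ℝ := fun x => f x + (- f x₀) with hh
  have hfd : Differentiable ℝ f := hf 0 (by omega)
  have hhT : TimesDiff (m + 1) h := hf.add (timesDiff_const _ _)
  have hhd : Differentiable ℝ h := hhT 0 (by omega)
  have hderiv : deriv h = deriv f := by
    funext x
    simp [hh]
  obtain ⟨R, hR, hE⟩ := leibniz hhT (m + 1) (by omega) le_rfl
  have hRd : Differentiable ℝ R := hR 0 (by omega)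
  have hfun : deriv^[m + 1] (fun x => f x * f x - 2 * f x₀ * f x)
      = deriv^[m + 1] (fun x => h x * h x) := by
    rw [Function.iterate_succ_apply, Function.iterate_succ_apply]
    congr 1
    have : (fun x => f x * f x - 2 * f x₀ * f x) = fun x => h x * h x + (- (f x₀ * f x₀)) := by
      funext x
      simp only [hh]
      ring
    rw [this]
    funext x
    simp
  have hiter : deriv^[m + 1] h = deriv (deriv^[m] f) := by
    rw [Function.iterate_succ_apply, hderiv, ← Function.iterate_succ_apply,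
      Function.iterate_succ_apply']
  rw [hfun, hE, hiter]
  intro hNH
  have hcon := hNH x₀ 1 one_pos
  -- local bounds
  have hx0 : h x₀ = 0 := by simp [hh]
  have b1 : ∃ C₁ : ℝ, ∀ᶠ y in 𝓝 x₀, |h y - h x₀| ≤ C₁ * |y - x₀| := by
    have := (hhd x₀).hasDerivAt.isBigO_sub
    obtain ⟨C, hC⟩ := this.bound
    exact ⟨C, by simpa [Real.norm_eq_abs] using hC⟩
  have b2 : ∃ C₂ : ℝ, ∀ᶠ y in 𝓝 x₀, |R y - R x₀| ≤ C₂ * |y - x₀| := by
    have := (hRd x₀).hasDerivAt.isBigO_sub
    obtain ⟨C, hC⟩ := this.bound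
    exact ⟨C, by simpa [Real.norm_eq_abs] using hC⟩
  obtain ⟨C₁, hC₁⟩ := b1
  obtain ⟨C₂, hC₂⟩ := b2
  have hfin : ∀ᶠ y in 𝓝[≠] x₀,
      ¬ (2 * (|C₁| * |N|) + C₂ < |(2 * (h y * deriv (deriv^[m] f) y) + R y) -
        (2 * (h x₀ * deriv (deriv^[m] f) x₀) + R x₀)| / |y - x₀| ^ (1 : ℝ)) := by
    have hall : ∀ᶠ y in 𝓝[≠] x₀, |deriv (deriv^[m] f) y| ≤ N ∧
        |h y - h x₀| ≤ C₁ * |y - x₀| ∧ |R y - R x₀| ≤ C₂ * |y - x₀| := by
      apply nhdsWithin_le_nhds
      filter_upwards [hN, hC₁, hC₂] with y h1 h2 h3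
      exact ⟨h1, h2, h3⟩
    filter_upwards [hall, self_mem_nhdsWithin] with y hy hy0
    obtain ⟨h1, h2, h3⟩ := hy
    have hpos : 0 < |y - x₀| := abs_pos.mpr (sub_ne_zero.mpr hy0)
    rw [Real.rpow_one, not_lt, div_le_iff₀ hpos, hx0]
    rw [hx0, sub_zero] at h2
    have e1 : |h y| ≤ |C₁| * |y - x₀| :=
      h2.trans (mul_le_mul_of_nonneg_right (le_abs_self _) hpos.le)
    have e2 : |deriv (deriv^[m] f) y| ≤ |N| := h1.trans (le_abs_self _)
    have e3 : |h y * deriv (deriv^[m] f) y| ≤ (|C₁| * |y - x₀|) * |N| := by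
      rw [abs_mul]
      exact mul_le_mul e1 e2 (abs_nonneg _) (by positivity)
    calc |(2 * (h y * deriv (deriv^[m] f) y) + R y) -
          (2 * (0 * deriv (deriv^[m] f) x₀) + R x₀)|
        = |2 * (h y * deriv (deriv^[m] f) y) + (R y - R x₀)| := by ring_nf
      _ ≤ |2 * (h y * deriv (deriv^[m] f) y)| + |R y - R x₀| := abs_add_le _ _
      _ = 2 * |h y * deriv (deriv^[m] f) y| + |R y - R x₀| := by
          rw [abs_mul, abs_of_pos (by norm_num : (0 : ℝ) < 2)]
      _ ≤ 2 * ((|C₁| * |y - x₀|) * |N|) + C₂ * |y - x₀| := by linarith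
      _ = (2 * (|C₁| * |N|) + C₂) * |y - x₀| := by ring
  exact (hcon (2 * (|C₁| * |N|) + C₂)) hfin

/-- For every `n ≥ 1` and every cardinal `κ ≥ 1`, the class `𝒜ₙ` is not strongly
`κ`-algebrable; in particular it is not strongly `𝔠`-algebrable. -/
theorem result : ∀ n : ℕ, 1 ≤ n → ∀ κ : Cardinal.{0}, 1 ≤ κ →
    ¬ StronglyAlgebrable κ (classA n) := by
  rintro n hn κ hκ ⟨X, hX, hP⟩
  have hne : Nonempty X := by
    rw [← Cardinal.mk_ne_zero_iff, hX]
    exact (lt_of_lt_of_le zero_lt_one hκ).ne'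
  obtain ⟨⟨f, hfX⟩⟩ := hne
  let y : Fin 1 → (ℝ → ℝ) := fun _ => f
  have hy : Function.Injective y := Function.injective_of_subsingleton _
  have h1 := hP 1 le_rfl (MvPolynomial.X 0) (MvPolynomial.X_ne_zero _) (by simp) y hy
    (fun _ => hfX)
  have hfA : f ∈ classA n := by
    have := h1.2
    simpa [y] using this
  obtain ⟨c, hc⟩ := key hn hfA.1
  let P : MvPolynomial (Fin 1) ℝ :=
    MvPolynomial.X 0 * MvPolynomial.X 0 - MvPolynomial.C (2 * c) * MvPolynomial.X 0
  have hP0 : P ≠ 0 := by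
    intro h0
    have e1 : MvPolynomial.eval (fun _ => (2 * c + 1 : ℝ)) P = 0 := by rw [h0]; simp
    have e2 : MvPolynomial.eval (fun _ => (2 * c - 1 : ℝ)) P = 0 := by rw [h0]; simp
    simp only [P, map_sub, map_mul, MvPolynomial.eval_X, MvPolynomial.eval_C] at e1 e2
    linarith
  have h2 := (hP 1 le_rfl P hP0 (by simp [P]) y hy (fun _ => hfX)).2
  have h3 : MvPolynomial.aeval y P = fun x => f x * f x - 2 * c * f x := by
    simp only [P, map_sub, map_mul, MvPolynomial.aeval_X, MvPolynomial.aeval_C, y]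
    funext x
    simp
  rw [h3] at h2
  exact hc h2.2

end Pool.Agent.Results.MP_4d07cf_an.NotAlgebrable
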